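import Pool.Agent.H606.GU.Stm

/-! TASK AV of project GU (helper606). -/

open MeasureTheory Filter Topology Finset
open Pool.Agent.H606.GU

namespace Pool.Agent.H177.GU.AV

variable {α : Type} {N : ℕ}

theorem cnt_fin [Finite α] (x : Fin N → ℝ) (A : Set (α → ℝ)) (t : ℝ) :
    {s : α → Fin N | Function.Injective s ∧ (fun i => x (s i) - t) ∈ A}.Finite :=
  Set.toFinite _

open Classical in
theorem cnt_eq [Fintype α] (x : Fin N → ℝ) (A : Set (α → ℝ)) (t : ℝ) :
    (cnt x A t : ℝ) = ∑ s : α → Fin N, (if Function.Injective s then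
      ({t : ℝ | (fun i => x (s i) - t) ∈ A} : Set ℝ).indicator (fun _ => (1 : ℝ)) t else 0) := by
  unfold cnt
  rw [Set.ncard_eq_toFinset_card']
  rw [Set.toFinset_ofPred, Finset.card_filter]
  push_cast
  refine Finset.sum_congr rfl fun s _ => ?_
  by_cases h1 : Function.Injective s
  · rw [if_pos h1]
    by_cases h2 : (fun i => x (s i) - t) ∈ A
    · rw [if_pos ⟨h1, h2⟩, Set.indicator_of_mem (show t ∈ {t : ℝ | (fun i => x (s i) - t) ∈ A} from h2)]
    · rw [if_neg (fun h => h2 h.2),
        Set.indicator_of_notMem (show t ∉ {t : ℝ | (fun i => x (s i) - t) ∈ A} from h2)]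
  · rw [if_neg h1, if_neg (fun h => h1 h.1)]

theorem int_term [Fintype α] [Nonempty α] (x : Fin N → ℝ) {A : Set (α → ℝ)} (hA : MeasurableSet A)
    (hb : Bornology.IsBounded A) (s : α → Fin N) :
    Integrable (({t : ℝ | (fun i => x (s i) - t) ∈ A} : Set ℝ).indicator (fun _ => (1 : ℝ))) := by
  have hm : MeasurableSet {t : ℝ | (fun i => x (s i) - t) ∈ A} := by
    have hcont : Measurable (fun (t : ℝ) (i : α) => x (s i) - t) :=
      measurable_pi_lambda _ fun i => measurable_const.sub measurable_id
    exact hcont hA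
  obtain ⟨ρ, hρ⟩ := hb.subset_closedBall 0
  obtain ⟨i0⟩ := ‹Nonempty α›
  have hsub : {t : ℝ | (fun i => x (s i) - t) ∈ A} ⊆ Set.Icc (x (s i0) - ρ) (x (s i0) + ρ) := by
    intro t ht
    have h1 : (fun i => x (s i) - t) ∈ Metric.closedBall (0 : α → ℝ) ρ := hρ ht
    rw [mem_closedBall_zero_iff] at h1
    have h2 := (norm_le_pi_norm (fun i => x (s i) - t) i0).trans h1
    rw [Real.norm_eq_abs, abs_le] at h2
    exact ⟨by linarith [h2.2], by linarith [h2.1]⟩
  have hfin : volume {t : ℝ | (fun i => x (s i) - t) ∈ A} < ⊤ :=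
    (measure_mono hsub).trans_lt measure_Icc_lt_top
  rw [integrable_indicator_iff hm]
  exact integrableOn_const hfin.ne

theorem integ [Fintype α] [Nonempty α] (x : Fin N → ℝ) {A : Set (α → ℝ)} (hA : MeasurableSet A)
    (hb : Bornology.IsBounded A) : Integrable (fun t => (cnt x A t : ℝ)) := by
  classical
  simp only [cnt_eq]
  refine integrable_finsetSum _ fun s _ => ?_
  by_cases h1 : Function.Injective s
  · simp only [if_pos h1]
    exact int_term x hA hb s
  · simp only [if_neg h1]
    exact integrable_zero _ _ _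

theorem t_AV : S_AV := by
  intro α _ _ N x R hR
  refine ⟨fun A hA hb => integ x hA hb, ?_, ?_, ?_, ?_⟩
  · intro A τ
    unfold Av
    congr 1
    have h1 : ∀ t : ℝ, cnt x {y | (fun i => y i - τ) ∈ A} t = cnt x A (t + τ) := by
      intro t
      unfold cnt
      congr 1
      ext s
      simp only [Set.mem_ofPred_eq]
      have h2 : (fun i => x (s i) - t - τ) = (fun i => x (s i) - (t + τ)) := by
        funext i; ring
      rw [h2]
    simp only [h1]
    exact integral_add_right_eq_self (fun t => (cnt x A t : ℝ)) τ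
  · intro A B hA hAb hB hBb hd
    unfold Av
    rw [← add_div, ← integral_add (integ x hA hAb) (integ x hB hBb)]
    congr 1
    refine integral_congr_ae (Eventually.of_forall fun t => ?_)
    simp only
    have h1 : cnt x (A ∪ B) t = cnt x A t + cnt x B t := by
      unfold cnt
      rw [← Set.ncard_union_eq ?_ (cnt_fin x A t) (cnt_fin x B t)]
      · congr 1
        ext s
        simp only [Set.mem_ofPred_eq, Set.mem_union]
        tauto
      · rw [Set.disjoint_left]
        intro s h1 h2
        exact Set.disjoint_left.1 hd h1.2 h2.2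
    rw [h1]
    push_cast
    rfl
  · intro A B hA hB hBb hAB
    unfold Av
    refine div_le_div_of_nonneg_right ?_ hR.le
    refine integral_mono (integ x hA (hBb.subset hAB)) (integ x hB hBb) fun t => ?_
    simp only
    have h1 : cnt x A t ≤ cnt x B t := by
      unfold cnt
      exact Set.ncard_le_ncard (fun s hs => ⟨hs.1, hAB hs.2⟩) (cnt_fin x B t)
    exact_mod_cast h1
  · intro A
    unfold Av
    exact div_nonneg (integral_nonneg fun t => Nat.cast_nonneg _) hR.le

end Pool.Agent.H177.GU.AV
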